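import Pool.Agent.W539.Cone.Base

/-!
# The nef cone conjecture for fibrations over a base of Fano type

`(X, Δ)` is a projective klt Calabi-Yau pair, `f : X → Z` a contraction, `Δ₀` a boundary with
`(X, Δ₀)` klt and `K_X + Δ₀ ≡ -f^* H`, `H` ample on `Z` (for example `Δ₀ = 0` and `f` the Iitaka
fibration of `-K_X`, if `-K_X` is semiample). `R` consists of `V = N^1(X)`, the classes of Cartier
divisors `L`, `E = Nef^e(X)` and `Γ`, the image of `Aut(X, Δ)`; it is `Good` iff the nef cone conjecture
holds for `(X, Δ)`. `W = f^* N^1(Z)`, and `S` consists of the functionals `D ↦ D · C`, `C` the rational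
curves of bounded degree spanning the `(K_X + Δ₀)`-negative extremal rays.
-/

namespace Pool.Agent.Results.MP_9f99c5_ag.RelativeToAbsolute

open Pool.Agent.W539.Cone

theorem result {V : Type} [NormedAddCommGroup V] [NormedSpace ℝ V] [FiniteDimensional ℝ V]
    (R : ConeRep V) (W : Submodule ℝ V) (S : Set (V →ₗ[ℝ] ℝ)) (h : FanoBase R W S) :
    R.Good ↔ RelDomain R W :=
  ⟨relDomain_of_good R W, fano_base_good R W S h⟩

end Pool.Agent.Results.MP_9f99c5_ag.RelativeToAbsolute
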